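import Pool.Agent.helper82.UM.Spec

/-!
Row `um:DNS` (MP_2e0e07_nt): density of the Frobenius elements and the universal polynomial.
-/

set_option autoImplicit false

namespace Pool.Agent.UM

open Matrix Polynomial Pool.Agent.GO Pool.Agent.AR Pool.Agent.RG Pool.Agent.HZ Pool.Agent.DS
  Pool.Agent.AX MeasureTheory NumberField

theorem DNS : DNS_stmt := by
  intro hVAL r n Φ Γ Place E _ _ _ _ frob hd _ P Q T hT F _ _ _ _ ι V ρ hVc hρc hV hρ h g
  choose TV hTV hTV' using hV
  obtain ⟨Tρ, hTρ, hTρ'⟩ := hρ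
  have hcont : Continuous fun g => ev Φ (fun i => (V i g).charpoly) (ρ g).trace :=
    continuous_rel (Int.castRingHom F) Φ V hVc (fun g => (ρ g).trace) hρc.matrix_trace
  by_contra hg
  obtain ⟨v, -, hv, s, hs, -, hsO⟩ := hd {g | ev Φ (fun i => (V i g).charpoly) (ρ g).trace ≠ 0}
    ((⋃ i, TV i) ∪ Tρ ∪ T) (isOpen_ne_fun hcont continuous_const) ⟨g, hg, Subgroup.mem_top _⟩
    (((Set.finite_iUnion hTV).union hTρ).union hT)
  apply hsO
  show ev Φ (fun i => (V i s).charpoly) (ρ s).trace = 0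
  have h1 := hVAL.2 Φ (ι.comp (algebraMap (𝓞 E) E)) (fun i => P i v) (Q v)
  rw [h v (fun hh => hv (Or.inr hh)), map_zero] at h1
  have h2 : (fun i => (V i s).charpoly) = fun i => (P i v).map (Int.castRingHom F) := by
    funext i
    rw [hTV' i v (fun hh => hv (Or.inl (Or.inl (Set.mem_iUnion.mpr ⟨i, hh⟩)))) s hs,
      Polynomial.map_map]
    congr 1
    exact RingHom.ext_int _ _
  have h3 : (ρ s).trace = -((ι.comp (algebraMap (𝓞 E) E)) ((Q v).coeff 1)) := by
    have h4 := hTρ' v (fun hh => hv (Or.inl (Or.inr hh))) s hs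
    rw [Matrix.trace_eq_neg_charpoly_coeff, Fintype.card_fin, h4, Polynomial.coeff_map,
      Polynomial.coeff_map]
    rfl
  rw [h2, h3]
  exact h1.symm

end Pool.Agent.UM
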